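import Pool.Agent.Helper29.UG.Props
import Pool.Agent.Helper95.RC.Gns

/-!
# MP_b55b7c_an, packet UG-N2: elementary properties of the 2-norm
-/

open scoped ENNReal NNReal InnerProductSpace ComplexOrder
open Filter Topology

attribute [-instance] CStarMatrix.instAlgebra CStarMatrix.instModule CStarMatrix.instSMul
  CStarMatrix.instMulAction CStarMatrix.instDistribMulAction

noncomputable section
namespace RC
universe u

theorem n2P : N2P.{u} := by
  intro A _ _ _ φ
  obtain ⟨H, _, _, _, π, ρ, ξ, hR⟩ := gnsP A φ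
  have hip : ∀ x y : A, ⟪π x ξ, π y ξ⟫_ℂ = φ.φ (star x * y) := by
    intro x y
    rw [← hR.inner (star x * y), map_mul, map_star]
    change _ = ⟪ξ, (star (π x)) (π y ξ)⟫_ℂ
    rw [ContinuousLinearMap.star_eq_adjoint, ContinuousLinearMap.adjoint_inner_right]
  have hsq : ∀ x : A, (φ.φ (star x * x)).re = ‖π x ξ‖ ^ 2 := by
    intro x
    rw [← hip, inner_self_eq_norm_sq_to_K]
    norm_cast
  have hn : ∀ x : A, n2 φ x = ‖π x ξ‖ := by
    intro x
    unfold n2
    rw [hsq]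
    exact Real.sqrt_sq (norm_nonneg _)
  have hξ : ‖ξ‖ = 1 := by
    have h1 := hsq 1
    rw [star_one, one_mul, φ.one, map_one] at h1
    change (1 : ℂ).re = ‖ξ‖ ^ 2 at h1
    rw [Complex.one_re] at h1
    nlinarith [norm_nonneg ξ]
  have hstar : ∀ x : A, n2 φ (star x) = n2 φ x := by
    intro x
    unfold n2
    rw [star_star, φ.trace x (star x)]
  have hle : ∀ x : A, n2 φ x ≤ ‖x‖ := by
    intro x
    rw [hn]
    calc ‖π x ξ‖ ≤ ‖π x‖ * ‖ξ‖ := (π x).le_opNorm ξ
      _ ≤ ‖x‖ * 1 := by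
          rw [hξ]
          gcongr
          exact NonUnitalStarAlgHom.norm_apply_le π x
      _ = ‖x‖ := mul_one _
  have hmul : ∀ x y : A, n2 φ (x * y) ≤ ‖x‖ * n2 φ y := by
    intro x y
    rw [hn, hn, map_mul]
    calc ‖(π x * π y) ξ‖ = ‖π x (π y ξ)‖ := rfl
      _ ≤ ‖π x‖ * ‖π y ξ‖ := (π x).le_opNorm _
      _ ≤ ‖x‖ * ‖π y ξ‖ := by
          gcongr
          exact NonUnitalStarAlgHom.norm_apply_le π x
  refine ⟨?_, ?_, ?_, ?_⟩
  · intro x
    refine ⟨Real.sqrt_nonneg _, ?_, hle x, ?_, hstar x, ?_⟩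
    · rw [hn, hsq]
    · have h1 := hip 1 x
      rw [star_one, one_mul, map_one] at h1
      change ⟪ξ, π x ξ⟫_ℂ = _ at h1
      rw [← h1, hn]
      calc ‖⟪ξ, π x ξ⟫_ℂ‖ ≤ ‖ξ‖ * ‖π x ξ‖ := norm_inner_le_norm _ _
        _ = ‖π x ξ‖ := by rw [hξ, one_mul]
    · unfold n2
      rw [star_neg, neg_mul_neg]
  · intro c x
    rw [hn, hn, map_smul]
    change ‖c • π x ξ‖ = _
    rw [norm_smul]
  · intro x y
    refine ⟨?_, ?_, hmul x y, ?_, ?_⟩
    · rw [hn, hn, hn, map_add]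
      exact norm_add_le _ _
    · rw [hn, hn, hn, map_sub]
      exact norm_sub_le _ _
    · rw [← hstar (x * y), star_mul]
      calc n2 φ (star y * star x) ≤ ‖star y‖ * n2 φ (star x) := hmul _ _
        _ = n2 φ x * ‖y‖ := by rw [norm_star, hstar, mul_comm]
    · rw [← hip, hn, hn]
      exact norm_inner_le_norm _ _
  · intro x y hxy
    have h1 := φ.nonneg (y - x) (sub_nonneg.2 hxy)
    rw [map_sub] at h1
    have h2 := (Complex.le_def.1 h1).1
    rw [Complex.zero_re, Complex.sub_re] at h2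
    linarith

end RC
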